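import Pool.Agent.Helper45.LGB.St2

/-!
# Project LGB, module CUV: cube groups, the last vertex
-/

set_option autoImplicit false

namespace Pool.Agent.Helper83.LGB

open Pool.Agent.Helper45.LGB Pool.Agent.Helper83.RB
open scoped commutatorElement

variable {n : ℕ} {G : Type} [Group G]

/-- the subgroup generated by the `fc S h` with `S` in `U` -/
private def NU (ω : Fin n → ℕ) (t : ℕ) (U : Finset (Finset (Fin n))) :
    Subgroup (Finset (Fin n) → G) :=
  Subgroup.closure {F | ∃ S ∈ U, ∃ h ∈ gm G (t + wt ω S), F = fc S h}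

private lemma fc_mul (S : Finset (Fin n)) (h h' : G) : fc S h * fc S h' = fc S (h * h') := by
  funext T
  simp only [Pi.mul_apply, fc]
  split_ifs <;> simp

private lemma fc_inv (S : Finset (Fin n)) (h : G) : (fc S h)⁻¹ = fc S h⁻¹ := by
  funext T
  simp only [Pi.inv_apply, fc]
  split_ifs <;> simp

private lemma fc_one (S : Finset (Fin n)) : (fc S (1 : G)) = 1 := by
  funext T
  simp [fc]

private lemma fc_conj (S S' : Finset (Fin n)) (h h' : G) :
    fc S h * fc S' h' * (fc S h)⁻¹ = fc (S ∪ S') ⁅h, h'⁆ * fc S' h' := by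
  funext T
  simp only [Pi.mul_apply, Pi.inv_apply, fc]
  by_cases h1 : S ⊆ T
  · by_cases h2 : S' ⊆ T
    · rw [if_pos h1, if_pos h2, if_pos (Finset.union_subset h1 h2), commutatorElement_def]
      group
    · have h3 : ¬ S ∪ S' ⊆ T := fun h3 => h2 (Finset.union_subset_right h3)
      rw [if_pos h1, if_neg h2, if_neg h3]
      group
  · have h3 : ¬ S ∪ S' ⊆ T := fun h3 => h1 (Finset.union_subset_left h3)
    rw [if_neg h1, if_neg h3]
    group

private lemma wt_union (ω : Fin n → ℕ) (S S' : Finset (Fin n)) :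
    wt ω (S ∪ S') ≤ wt ω S + wt ω S' := by
  unfold wt
  have h := Finset.sum_union_inter (s₁ := S) (s₂ := S') (f := ω)
  omega

private lemma main (hGMA : StGMA) (ω : Fin n → ℕ) (t : ℕ) :
    ∀ (c : ℕ) (U : Finset (Finset (Fin n))), U.card = c →
      (∀ S ∈ U, ∀ S', S ⊆ S' → S' ∈ U) → ∀ F : Finset (Fin n) → G, F ∈ NU ω t U →
      (∀ T, T ≠ Finset.univ → F T = 1) → F Finset.univ ∈ gm G (t + wt ω Finset.univ) := by
  intro c
  induction c with
  | zero =>
    intro U hc _ F hF _
    have hU : U = ∅ := Finset.card_eq_zero.1 hc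
    subst hU
    have h1 : F = 1 := by
      have : (NU ω t ∅ : Subgroup (Finset (Fin n) → G)) = ⊥ := by
        unfold NU
        rw [Subgroup.closure_eq_bot_iff]
        rintro x ⟨S, hS, -⟩
        simp at hS
      rw [this] at hF
      exact Subgroup.mem_bot.1 hF
    rw [h1]
    exact Subgroup.one_mem _
  | succ c ih =>
    intro U hc hup F hF hT
    have hne : U.Nonempty := by
      rw [← Finset.card_pos]
      omega
    obtain ⟨S, hS, hmin⟩ := Finset.exists_min_image U Finset.card hne
    have hmin' : ∀ S' ∈ U, S' ⊆ S → S' = S := fun S' hS' hsub =>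
      Finset.eq_of_subset_of_card_le hsub (hmin S' hS')
    set U' := U.erase S with hU'
    have hup' : ∀ S₁ ∈ U', ∀ S₂, S₁ ⊆ S₂ → S₂ ∈ U' := by
      intro S₁ h1 S₂ h2
      rw [hU', Finset.mem_erase] at h1 ⊢
      refine ⟨?_, hup S₁ h1.2 S₂ h2⟩
      rintro rfl
      exact h1.1 (hmin' S₁ h1.2 h2)
    have hcard : U'.card = c := by
      rw [hU', Finset.card_erase_of_mem hS]
      omega
    -- conjugation
    have hconj : ∀ h ∈ gm G (t + wt ω S), ∀ F' ∈ (NU ω t U' : Subgroup (Finset (Fin n) → G)),
        fc S h * F' * (fc S h)⁻¹ ∈ (NU ω t U' : Subgroup (Finset (Fin n) → G)) := by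
      intro h hh F' hF'
      unfold NU at hF'
      induction hF' using Subgroup.closure_induction with
      | mem x hx =>
        obtain ⟨S', hS', h', hh', rfl⟩ := hx
        rw [fc_conj]
        refine Subgroup.mul_mem _ ?_ ?_
        · refine Subgroup.subset_closure ⟨S ∪ S', ?_, ⁅h, h'⁆, ?_, rfl⟩
          · exact hup' S' hS' _ Finset.subset_union_right
          · have h1 := (hGMA G).1 (t + wt ω S) (t + wt ω S') (Subgroup.commutator_mem_commutator hh hh')
            refine (hGMA G).2.1 _ _ ?_ h1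
            have := wt_union ω S S'
            omega
        · exact Subgroup.subset_closure ⟨S', hS', h', hh', rfl⟩
      | one => simp
      | mul x y _ _ hx hy =>
        have e : fc S h * (x * y) * (fc S h)⁻¹ =
            (fc S h * x * (fc S h)⁻¹) * (fc S h * y * (fc S h)⁻¹) := by group
        rw [e]
        exact Subgroup.mul_mem _ hx hy
      | inv x _ hx =>
        have e : fc S h * x⁻¹ * (fc S h)⁻¹ = (fc S h * x * (fc S h)⁻¹)⁻¹ := by group
        rw [e]
        exact Subgroup.inv_mem _ hx
    -- values at `S`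
    have hval : ∀ F' ∈ (NU ω t U' : Subgroup (Finset (Fin n) → G)), F' S = 1 := by
      intro F' hF'
      unfold NU at hF'
      induction hF' using Subgroup.closure_induction with
      | mem x hx =>
        obtain ⟨S', hS', h', hh', rfl⟩ := hx
        rw [hU', Finset.mem_erase] at hS'
        unfold fc
        rw [if_neg]
        intro hsub
        exact hS'.1 (hmin' S' hS'.2 hsub)
      | one => rfl
      | mul x y _ _ hx hy => rw [Pi.mul_apply, hx, hy, one_mul]
      | inv x _ hx => rw [Pi.inv_apply, hx, inv_one]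
    -- decomposition
    have hdec : ∃ h ∈ gm G (t + wt ω S), ∃ F' ∈ (NU ω t U' : Subgroup (Finset (Fin n) → G)),
        F = fc S h * F' := by
      clear hT
      unfold NU at hF
      induction hF using Subgroup.closure_induction with
      | mem x hx =>
        obtain ⟨S', hS', h', hh', rfl⟩ := hx
        by_cases hSS : S' = S
        · subst hSS
          exact ⟨h', hh', 1, Subgroup.one_mem _, by rw [mul_one]⟩
        · refine ⟨1, Subgroup.one_mem _, fc S' h', ?_, by rw [fc_one, one_mul]⟩
          refine Subgroup.subset_closure ⟨S', ?_, h', hh', rfl⟩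
          rw [hU', Finset.mem_erase]
          exact ⟨hSS, hS'⟩
      | one => exact ⟨1, Subgroup.one_mem _, 1, Subgroup.one_mem _, by rw [fc_one, one_mul]⟩
      | mul x y _ _ hx hy =>
        obtain ⟨h, hh, F₁, hF₁, rfl⟩ := hx
        obtain ⟨h', hh', F₂, hF₂, rfl⟩ := hy
        refine ⟨h * h', Subgroup.mul_mem _ hh hh',
          (fc S h'⁻¹ * F₁ * (fc S h'⁻¹)⁻¹) * F₂, Subgroup.mul_mem _
            (hconj _ (Subgroup.inv_mem _ hh') _ hF₁) hF₂, ?_⟩
        rw [← fc_mul, ← fc_inv]
        group
      | inv x _ hx =>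
        obtain ⟨h, hh, F₁, hF₁, rfl⟩ := hx
        refine ⟨h⁻¹, Subgroup.inv_mem _ hh, fc S h * F₁⁻¹ * (fc S h)⁻¹,
          hconj _ hh _ (Subgroup.inv_mem _ hF₁), ?_⟩
        rw [← fc_inv]
        group
    obtain ⟨h, hh, F', hF', e⟩ := hdec
    have hFS : F S = h := by
      rw [e, Pi.mul_apply, hval F' hF', mul_one]
      unfold fc
      rw [if_pos (Finset.Subset.refl S)]
    by_cases hSu : S = Finset.univ
    · rw [← hSu, hFS]
      exact hh
    · have h1 : h = 1 := by rw [← hFS]; exact hT S hSu
      have h2 : F = F' := by rw [e, h1, fc_one, one_mul]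
      rw [← h2] at hF'
      exact ih U' hcard hup' F hF' hT

theorem hCUV (hGMA : StGMA) (_hCUB : StCUB) : StCUV := by
  intro n G _ ω t F hF hT
  refine main hGMA ω t _ Finset.univ rfl (fun _ _ _ _ => Finset.mem_univ _) F ?_ hT
  have e : (NU ω t Finset.univ : Subgroup (Finset (Fin n) → G)) = Cb ω t := by
    unfold NU Cb
    congr 1
    ext F
    constructor
    · rintro ⟨S, -, h, hh, rfl⟩
      exact ⟨S, h, hh, rfl⟩
    · rintro ⟨S, h, hh, rfl⟩
      exact ⟨S, Finset.mem_univ _, h, hh, rfl⟩
  rw [e]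
  exact hF

end Pool.Agent.Helper83.LGB
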